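import Pool.Agent.helper64.LP.Lang

/-!
# MP_32ee78_lc, module H1: compiling the stack language to Mathlib's `TM2` machines
-/

set_option autoImplicit false

namespace Pool.Agent.helper64.LP

open Turing

namespace Comp

variable {K : Type} {Γ : K → Type} {σ : Type}

/-- labels of a command: one for each while loop -/
def Lab : Cmd Γ σ → Type
  | .push _ _ => Empty
  | .pop _ _ => Empty
  | .peek _ _ => Empty
  | .load _ => Empty
  | .seq c d => Lab c ⊕ Lab d
  | .ite _ c d => Lab c ⊕ Lab d
  | .whl _ c => Option (Lab c)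

theorem lab_finite : ∀ c : Cmd Γ σ, Finite (Lab c)
  | .push _ _ => inferInstanceAs (Finite Empty)
  | .pop _ _ => inferInstanceAs (Finite Empty)
  | .peek _ _ => inferInstanceAs (Finite Empty)
  | .load _ => inferInstanceAs (Finite Empty)
  | .seq c d => by
    have := lab_finite c
    have := lab_finite d
    exact inferInstanceAs (Finite (Lab c ⊕ Lab d))
  | .ite _ c d => by
    have := lab_finite c
    have := lab_finite d
    exact inferInstanceAs (Finite (Lab c ⊕ Lab d))
  | .whl _ c => by
    have := lab_finite c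
    exact inferInstanceAs (Finite (Option (Lab c)))

/-- the statement executing `c` and then `q` -/
def st {Λ : Type} : (c : Cmd Γ σ) → (Lab c → Λ) → TM2.Stmt Γ Λ σ → TM2.Stmt Γ Λ σ
  | .push k f, _, q => .push k f q
  | .pop k f, _, q => .pop k f q
  | .peek k f, _, q => .peek k f q
  | .load f, _, q => .load f q
  | .seq c d, e, q => st c (fun l => e (Sum.inl l)) (st d (fun l => e (Sum.inr l)) q)
  | .ite p c d, e, q =>
    .branch p (st c (fun l => e (Sum.inl l)) q) (st d (fun l => e (Sum.inr l)) q)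
  | .whl _ _, e, _ => .goto fun _ => e none

/-- the bodies of the labels -/
def body {Λ : Type} : (c : Cmd Γ σ) → (Lab c → Λ) → TM2.Stmt Γ Λ σ → Lab c → TM2.Stmt Γ Λ σ
  | .push _ _, _, _, l => Empty.elim l
  | .pop _ _, _, _, l => Empty.elim l
  | .peek _ _, _, _, l => Empty.elim l
  | .load _, _, _, l => Empty.elim l
  | .seq c d, e, q, l => Sum.elim
      (body c (fun l => e (Sum.inl l)) (st d (fun l => e (Sum.inr l)) q))
      (body d (fun l => e (Sum.inr l)) q) l
  | .ite _ c d, e, q, l => Sum.elim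
      (body c (fun l => e (Sum.inl l)) q) (body d (fun l => e (Sum.inr l)) q) l
  | .whl p c, e, q, l => Option.elim l
      (.branch p (st c (fun l => e (some l)) (.goto fun _ => e none)) q)
      (body c (fun l => e (some l)) (.goto fun _ => e none))

variable [DecidableEq K]

/-- `n` steps -/
def Steps {Λ : Type} (M : Λ → TM2.Stmt Γ Λ σ) (n : ℕ) (a b : TM2.Cfg Γ Λ σ) : Prop :=
  (flip bind (TM2.step M))^[n] (some a) = some b

theorem Steps.refl {Λ : Type} (M : Λ → TM2.Stmt Γ Λ σ) (a : TM2.Cfg Γ Λ σ) : Steps M 0 a a := rfl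

theorem Steps.trans {Λ : Type} {M : Λ → TM2.Stmt Γ Λ σ} {n m : ℕ} {a b c : TM2.Cfg Γ Λ σ}
    (h : Steps M n a b) (h' : Steps M m b c) : Steps M (n + m) a c := by
  unfold Steps at *
  rw [Nat.add_comm, Function.iterate_add_apply, h, h']

theorem Steps.one {Λ : Type} (M : Λ → TM2.Stmt Γ Λ σ) (l : Λ) (v : σ) (S : ∀ k, List (Γ k)) :
    Steps M 1 ⟨some l, v, S⟩ (TM2.stepAux (M l) v S) := rfl

/-- correctness of the compilation -/
theorem correct {Λ : Type} (M : Λ → TM2.Stmt Γ Λ σ) {c : Cmd Γ σ} {v v' : σ}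
    {S S' : ∀ k, List (Γ k)} {n : ℕ} (h : Ev c v S v' S' n) :
    ∀ (e : Lab c → Λ) (q : TM2.Stmt Γ Λ σ), (∀ l, M (e l) = body c e q l) →
      ∃ m ≤ n, Steps M m (TM2.stepAux (st c e q) v S) (TM2.stepAux q v' S') := by
  induction h with
  | push k f v S => exact fun e q _ => ⟨0, Nat.zero_le _, rfl⟩
  | pop k f v S => exact fun e q _ => ⟨0, Nat.zero_le _, rfl⟩
  | peek k f v S => exact fun e q _ => ⟨0, Nat.zero_le _, rfl⟩
  | load f v S => exact fun e q _ => ⟨0, Nat.zero_le _, rfl⟩
  | seq c d v v' v'' S S' S'' n m h₁ h₂ ih₁ ih₂ =>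
    intro e q hM
    obtain ⟨a, ha, hsa⟩ := ih₁ (fun l => e (Sum.inl l)) (st d (fun l => e (Sum.inr l)) q)
      (fun l => hM (Sum.inl l))
    obtain ⟨b, hb, hsb⟩ := ih₂ (fun l => e (Sum.inr l)) q (fun l => hM (Sum.inr l))
    exact ⟨a + b, by omega, hsa.trans hsb⟩
  | ite_true p c d v v' S S' n hp h₁ ih =>
    intro e q hM
    obtain ⟨a, ha, hsa⟩ := ih (fun l => e (Sum.inl l)) q (fun l => hM (Sum.inl l))
    refine ⟨a, by omega, ?_⟩
    have : TM2.stepAux (st (.ite p c d) e q) v S =
        TM2.stepAux (st c (fun l => e (Sum.inl l)) q) v S := by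
      simp [st, hp]
    rw [this]
    exact hsa
  | ite_false p c d v v' S S' n hp h₁ ih =>
    intro e q hM
    obtain ⟨a, ha, hsa⟩ := ih (fun l => e (Sum.inr l)) q (fun l => hM (Sum.inr l))
    refine ⟨a, by omega, ?_⟩
    have : TM2.stepAux (st (.ite p c d) e q) v S =
        TM2.stepAux (st d (fun l => e (Sum.inr l)) q) v S := by
      simp [st, hp]
    rw [this]
    exact hsa
  | whl_false p c v S hp =>
    intro e q hM
    refine ⟨1, le_rfl, ?_⟩
    have h1 := Steps.one M (e none) v S
    have h2 : TM2.stepAux (M (e none)) v S = TM2.stepAux q v S := by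
      rw [hM none]
      simp [body, hp]
    rw [h2] at h1
    exact h1
  | whl_true p c v v' v'' S S' S'' n m hp h₁ h₂ ih₁ ih₂ =>
    intro e q hM
    obtain ⟨a, ha, hsa⟩ := ih₁ (fun l => e (some l)) (.goto fun _ => e none)
      (fun l => hM (some l))
    obtain ⟨b, hb, hsb⟩ := ih₂ e q hM
    have h1 := Steps.one M (e none) v S
    have h2 : TM2.stepAux (M (e none)) v S =
        TM2.stepAux (st c (fun l => e (some l)) (.goto fun _ => e none)) v S := by
      rw [hM none]
      simp [body, hp]
    rw [h2] at h1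
    exact ⟨1 + a + b, by omega, (h1.trans hsa).trans hsb⟩

theorem dite_stack {Γ : K → Type} (k₀ : K) (l : List (Γ k₀)) :
    (fun k => @dite (List (Γ k)) (k = k₀) (‹DecidableEq K› k k₀) (fun h => by rw [h]; exact l)
      fun _ => []) = oneStack k₀ l := by
  funext k
  by_cases hk : k = k₀
  · subst hk
    simp [oneStack]
  · simp [oneStack, hk]

end Comp

open Pool.Agent.helper64.LP.Comp in
theorem compile {K : Type} [DecidableEq K] [Fintype K] (Γ : K → Type) [∀ k, Fintype (Γ k)]
    (σ : Type) [Fintype σ] (k₀ k₁ : K) (e₀ : Γ k₀ ≃ Bool) (e₁ : Γ k₁ ≃ Bool) (v₀ : σ)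
    (c : Cmd Γ σ) (f : List Bool → List Bool) (A D : ℕ)
    (h : ∀ w : List Bool, ∃ n ≤ A * (w.length + 1) ^ D,
      Ev c v₀ (oneStack k₀ (w.map e₀.symm)) v₀ (oneStack k₁ ((f w).map e₁.symm)) n) :
    PolyTime f := by
  classical
  have := lab_finite c
  have : Fintype (Option (Lab c)) := Fintype.ofFinite _
  let tm : FinTM2 :=
    { K := K
      kDecidableEq := inferInstance
      kFin := inferInstance
      k₀ := k₀
      k₁ := k₁
      Γ := Γ
      Λ := Option (Lab c)
      main := none
      ΛFin := inferInstance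
      σ := σ
      initialState := v₀
      σFin := inferInstance
      Γk₀Fin := inferInstance
      m := fun l => Option.elim l (st c some .halt) (body c some .halt) }
  refine ⟨⟨⟨tm, e₀, e₁⟩, Polynomial.C A * (Polynomial.X + 1) ^ D + 1, fun w => ?_⟩⟩
  have hex : ∃ m ≤ A * (w.length + 1) ^ D, Steps tm.m (1 + m)
      (initList tm (List.map e₀.invFun w)) (haltList tm (List.map e₁.invFun (f w))) := by
    obtain ⟨n, hn, hE⟩ := h w
    obtain ⟨m, hm, hs⟩ := correct tm.m hE some .halt (fun l => rfl)
    refine ⟨m, hm.trans hn, ?_⟩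
    have h1 := Steps.one tm.m none v₀ (oneStack k₀ (w.map e₀.symm))
    have h2 := h1.trans hs
    have e1 : initList tm (List.map e₀.invFun w) =
        (⟨some none, v₀, oneStack k₀ (w.map e₀.symm)⟩ : TM2.Cfg Γ (Option (Lab c)) σ) := by
      unfold initList
      congr 1
      exact dite_stack k₀ (w.map e₀.symm)
    have e2 : haltList tm (List.map e₁.invFun (f w)) =
        (⟨none, v₀, oneStack k₁ ((f w).map e₁.symm)⟩ : TM2.Cfg Γ (Option (Lab c)) σ) := by
      unfold haltList
      congr 1
      exact dite_stack k₁ ((f w).map e₁.symm)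
    rw [e1, e2]
    exact h2
  let m := hex.choose
  have hm := hex.choose_spec
  exact
    { steps := 1 + m
      evals_in_steps := hm.2
      steps_le_m := by
        have h3 : (Polynomial.C A * (Polynomial.X + 1) ^ D + 1 : Polynomial ℕ).eval
            (id w : List Bool).length = A * (w.length + 1) ^ D + 1 := by
          simp
        rw [h3]
        have := hm.1
        omega }

end Pool.Agent.helper64.LP
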