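import Pool.Agent.helper22.LP.MatD
import Pool.Agent.helper22.LP.Compile

/-!
# MP_32ee78_lc, module H2: matrices of local patterns are computable in polynomial time
-/

set_option autoImplicit false

namespace Pool.Agent.helper64.LP

namespace MB

open Function (update)

/-- the pattern of four cells -/
def pat (t : TC) (j : JC) (p : TC × Bool × Bool × Bool) (q : JC × Bool × Bool × Bool) : BPat where
  p := ⟨t.1, t.2, j.1, j.2.1, j.2.2.1, j.2.2.2⟩
  p' := ⟨p.1.1, p.1.2, q.1.1, q.1.2.1, q.1.2.2.1, q.1.2.2.2⟩
  tt := p.2.1
  tn := p.2.2.1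
  tp := p.2.2.2
  jj := q.2.1
  jn := q.2.2.1
  jp := q.2.2.2

/-- the pattern of the registers -/
def patv (v : Reg GG) : BPat :=
  pat ((v .T).getD default) ((v .J).getD default) ((v .P).getD default) ((v .Q).getD default)

variable {p : ℕ} (β : Fin p → Fin p → BPat → Bool)

/-- the lists of printed functions -/
def LL : List (List (Reg GG → Bool)) :=
  (List.finRange p).reverse.map fun a => (List.finRange p).reverse.map fun a' v => β a a' (patv v)

/-- the bits of the row block `(t, j)` -/
def GJ (w : List Bool) (N B t j : ℕ) : List Bool :=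
  (List.finRange p).flatMap fun a => (List.range N).flatMap fun t' => (List.range N).flatMap
    fun j' => (List.finRange p).map fun a' =>
      β a a' (pat (tc N t) (jc w N B j) (tc N t', flg t t') (jc w N B j', flg j j'))

/-- the body of the `J` loop -/
def bodyJ : C :=
  .seq (.push .J0 fun v => (v .J).getD default) (.seq updQ (emA (LL β)))

/-- the `J` loop -/
def loopJ : C := .seq (each .J (bodyJ β)) (each .J0 (.push .J fun v => (v .J0).getD default))

/-- the time of `bodyJ` -/
def bodyJT (p N : ℕ) : ℕ := 1 + ((10 * N + 10) + (p * (N * (N * (2 * p + 10) + 16) + 8) + 1) + 1) + 1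

theorem vals {v : Reg GG} {w : List Bool} {N B t j : ℕ} (hT : v .T = some (tc N t))
    (hJ : v .J = some (jc w N B j)) :
    ((LL β).reverse.flatMap fun L => valP L v (Pl N t N) (Ql w N B j N)) = GJ β w N B t j := by
  simp only [LL, ← List.map_reverse, List.reverse_reverse, List.flatMap_map, GJ, valP, valQ, Pl, Ql,
    List.map_map]
  congr 1
  funext a
  congr 1
  funext t'
  congr 1
  funext j'
  congr 1
  funext a'
  simp [patv, Function.update, hT, hJ]

theorem bodyJ_runs {v : Reg GG} {S : Stk GG} {w : List Bool} {N B t j : ℕ} (hj : j < N)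
    (hT : v .T = some (tc N t)) (hJ : v .J = some (jc w N B j)) (h1 : v .Q = none)
    (h2 : v .Q' = none) (h3 : v .P = none) (h4 : v .P' = none) (h5 : v .fr = none)
    (s1 : S .Q = Ql w N B (j + 1) N) (s2 : S .Q' = [])
    (s3 : S .P = Pl N t N) (s4 : S .P' = []) :
    Runs (bodyJ β) v S v (update (update (update S .J0 (jc w N B j :: S .J0)) .Q (Ql w N B j N))
      .out (GJ β w N B t j ++ S .out)) (bodyJT p N) := by
  have r2 := updQ_runs (v := v) (S := update S .J0 (jc w N B j :: S .J0)) hj h1 h2 h5
    (by simpa [Function.update] using s1) (by simpa [Function.update] using s2)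
  have r3 := emA_runs h1 h2 h3 h4 p (LL β) (by
    intro L hL
    simp only [LL, List.mem_map] at hL
    obtain ⟨a, _, rfl⟩ := hL
    simp) (S := update (update S .J0 (jc w N B j :: S .J0)) .Q (Ql w N B j N))
    (by simpa [Function.update] using s2) (by simpa [Function.update] using s4)
  refine (((Runs.push _ _ _ _).conv rfl ?_ le_rfl).seq (r2.seq r3)).conv rfl ?_ ?_
  · simp [hJ]
  · have hP : (update (update S .J0 (jc w N B j :: S .J0)) .Q (Ql w N B j N)) KK.P =
        Pl N t N := by simpa [Function.update] using s3
    have hQ : (update (update S .J0 (jc w N B j :: S .J0)) .Q (Ql w N B j N)) KK.Q =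
        Ql w N B j N := by simp
    rw [hP, hQ, vals β hT hJ]
    funext k
    cases k <;> simp [Function.update]
  · have hP : (update (update S .J0 (jc w N B j :: S .J0)) .Q (Ql w N B j N)) KK.P =
        Pl N t N := by simpa [Function.update] using s3
    have hQ : (update (update S .J0 (jc w N B j :: S .J0)) .Q (Ql w N B j N)) KK.Q =
        Ql w N B j N := by simp
    rw [hP, hQ]
    have e1 : (LL β).length = p := by simp [LL]
    have e2 : (Pl N t N).length = N := by simp [Pl]
    have e3 : (Ql w N B j N).length = N := by simp [Ql]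
    rw [e1, e2, e3]
    exact le_rfl

theorem loopJ_runs {v : Reg GG} {S : Stk GG} {w : List Bool} {N B t : ℕ}
    (hT : v .T = some (tc N t)) (hJ : v .J = none) (hJ0 : v .J0 = none) (h1 : v .Q = none)
    (h2 : v .Q' = none) (h3 : v .P = none) (h4 : v .P' = none) (h5 : v .fr = none)
    (s1 : S .Q = Ql w N B N N) (s2 : S .Q' = [])
    (s3 : S .P = Pl N t N) (s4 : S .P' = []) (s5 : S .J = Jl w N B N) (s6 : S .J0 = []) :
    Runs (loopJ β) v S v (update (update S .Q (Ql w N B 0 N))
      .out ((List.range N).flatMap (GJ β w N B t) ++ S .out)) (N * (bodyJT p N + 7) + 7) := by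
  have r1 : Runs (each .J (bodyJ β)) v S v (update (update (update (update S .J [])
      .J0 (Jl w N B N).reverse) .Q (Ql w N B 0 N))
      .out ((List.range N).flatMap (GJ β w N B t) ++ S .out)) (N * (bodyJT p N + 3) + 3) := by
    refine (each_runs' (k := KK.J) hJ (Jl w N B N) (fun x q => update (update (update (update S .J q)
      .J0 x.reverse) .Q (Ql w N B q.length N))
      .out (((List.range N).drop q.length).flatMap (GJ β w N B t) ++ S .out)) (t := bodyJT p N)
      ?_ ?_ rfl ?_).conv rfl ?_ ?_
    · intro x q _
      simp [Function.update]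
    · have e1 : (Jl w N B N).length = N := by simp [Jl]
      rw [e1]
      have e2 : (List.range N).drop N = [] := by simp
      rw [e2]
      funext k
      cases k <;> simp [Function.update, s1, s5, s6]
    · intro x y q hxq
      obtain ⟨e1, e2, e3⟩ := suffix' _ hxq
      refine (bodyJ_runs β (w := w) (N := N) (B := B) (t := t) e2 ?_ ?_ ?_ ?_ ?_ ?_ ?_ ?_ ?_ ?_ ?_).conv
        rfl ?_ le_rfl
      · simp [Function.update, hT]
      · simp [e1]
      · simp [Function.update, h1]
      · simp [Function.update, h2]
      · simp [Function.update, h3]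
      · simp [Function.update, h4]
      · simp [Function.update, h5]
      · simp [Function.update]
      · simp [Function.update, s2]
      · simp [Function.update, s3]
      · simp [Function.update, s4]
      · funext k
        cases k <;> simp only [Function.update, reduceCtorEq, dite_true, dite_false]
        · rw [drop_range e2, List.flatMap_cons, List.append_assoc]
          rfl
        · simp [e1]
    · simp
    · simp [Jl]
  have r2 := move_runs (k := KK.J0) (k' := KK.J) (by decide) (fun o => o.getD default) (v := v)
    (S := (update (update (update (update S .J [])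
      .J0 (Jl w N B N).reverse) .Q (Ql w N B 0 N))
      .out ((List.range N).flatMap (GJ β w N B t) ++ S .out))) hJ0
  refine (r1.seq r2).conv rfl ?_ ?_
  · funext k
    cases k <;> simp [Function.update, s5, s6]
  · simp [Function.update, Jl]
    nlinarith

/-- the body of the `T` loop -/
def bodyT : C := .seq updP (.seq (loopJ β) resQ)

/-- the time of `bodyT` -/
def bodyTT (p N : ℕ) : ℕ := (10 * N + 10) + ((N * (bodyJT p N + 7) + 7) + (8 * N + 7) + 1) + 1

theorem bodyT_runs {v : Reg GG} {S : Stk GG} {w : List Bool} {N B t : ℕ} (ht : t < N)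
    (hT : v .T = some (tc N t)) (hJ : v .J = none) (hJ0 : v .J0 = none) (h1 : v .Q = none)
    (h2 : v .Q' = none) (h3 : v .P = none) (h4 : v .P' = none) (h5 : v .fr = none)
    (s1 : S .Q = Ql w N B N N) (s2 : S .Q' = [])
    (s3 : S .P = Pl N (t + 1) N) (s4 : S .P' = []) (s5 : S .J = Jl w N B N) (s6 : S .J0 = []) :
    Runs (bodyT β) v S v (update (update S .P (Pl N t N))
      .out ((List.range N).flatMap (GJ β w N B t) ++ S .out)) (bodyTT p N) := by
  have r1 := updP_runs (v := v) (S := S) ht h3 h4 h5 s3 s4
  have r2 := loopJ_runs β (v := v) (S := update S .P (Pl N t N)) (w := w) (N := N) (B := B) (t := t)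
    hT hJ hJ0 h1 h2 h3 h4 h5 (by simpa [Function.update] using s1)
    (by simpa [Function.update] using s2) (by simp) (by simpa [Function.update] using s4)
    (by simpa [Function.update] using s5) (by simpa [Function.update] using s6)
  have r3 := resQ_runs (v := v) (S := (update (update (update S .P (Pl N t N)) .Q (Ql w N B 0 N))
      .out ((List.range N).flatMap (GJ β w N B t) ++ S .out))) (w := w) (N := N) (B := B) (t := 0)
      h1 h2 (by simp [Function.update]) (by simp [Function.update, s2])
  refine (r1.seq ((r2.conv rfl ?_ le_rfl).seq r3)).conv rfl ?_ le_rfl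
  · simp [Function.update]
  · funext k
    cases k <;> simp [Function.update, s1]

/-- the main program -/
def mainC : C := .seq (each .T (bodyT β)) (.seq (each .J (.load id)) (.seq (each .P (.load id))
  (each .Q (.load id))))

theorem mainC_runs (w : List Bool) (N B : ℕ) :
    Runs (mainC β) v0 (bldS w N B) v0 (update (fun _ => []) .out
      ((List.range N).flatMap fun t => (List.range N).flatMap (GJ β w N B t)))
      (N * (bodyTT p N + 15) + 15) := by
  have r1 : Runs (each .T (bodyT β)) v0 (bldS w N B) v0 (update (update (update (update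
      (fun _ => []) .J (Jl w N B N)) .P (Pl N 0 N)) .Q (Ql w N B N N)) .out
      ((List.range N).flatMap fun t => (List.range N).flatMap (GJ β w N B t)))
      (N * (bodyTT p N + 3) + 3) := by
    refine (each_runs' (k := KK.T) rfl (Tl N N) (fun x q => update (update (update (update (update
      (fun _ => []) .T q) .J (Jl w N B N)) .P (Pl N q.length N)) .Q (Ql w N B N N)) .out
      (((List.range N).drop q.length).flatMap fun t => (List.range N).flatMap (GJ β w N B t)))
      (t := bodyTT p N) ?_ ?_ rfl ?_).conv rfl ?_ ?_
    · intro x q _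
      simp [Function.update]
    · have e1 : (Tl N N).length = N := by simp [Tl]
      rw [e1]
      have e2 : (List.range N).drop N = [] := by simp
      rw [e2]
      funext k
      cases k <;> simp [Function.update, bldS]
    · intro x y q hxq
      obtain ⟨e1, e2, e3⟩ := suffix' _ hxq
      refine (bodyT_runs β (w := w) (N := N) (B := B) e2 ?_ ?_ ?_ ?_ ?_ ?_ ?_ ?_ ?_ ?_ ?_ ?_ ?_ ?_).conv
        rfl ?_ le_rfl
      · simp [e1]
      · simp [Function.update, v0]
      · simp [Function.update, v0]
      · simp [Function.update, v0]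
      · simp [Function.update, v0]
      · simp [Function.update, v0]
      · simp [Function.update, v0]
      · simp [Function.update, v0]
      · simp [Function.update]
      · simp [Function.update]
      · simp [Function.update]
      · simp [Function.update]
      · simp [Function.update]
      · simp [Function.update]
      · funext k
        cases k <;> simp only [Function.update, reduceCtorEq, dite_true, dite_false]
        rw [drop_range e2, List.flatMap_cons]
        rfl
    · funext k
      cases k <;> simp [Function.update]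
    · simp [Tl]
  have r2 := clear_runs (k := KK.J) (v := v0) (S := (update (update (update (update
      (fun _ => []) .J (Jl w N B N)) .P (Pl N 0 N)) .Q (Ql w N B N N)) .out
      ((List.range N).flatMap fun t => (List.range N).flatMap (GJ β w N B t)))) rfl
  have r3 := clear_runs (k := KK.P) (v := v0) (S := (update (update (update
      (fun _ => []) .P (Pl N 0 N)) .Q (Ql w N B N N)) .out
      ((List.range N).flatMap fun t => (List.range N).flatMap (GJ β w N B t)))) rfl
  have r4 := clear_runs (k := KK.Q) (v := v0) (S := (update (update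
      (fun _ => []) .Q (Ql w N B N N)) .out
      ((List.range N).flatMap fun t => (List.range N).flatMap (GJ β w N B t)))) rfl
  refine (r1.seq ((r2.conv rfl ?_ le_rfl).seq ((r3.conv rfl ?_ le_rfl).seq r4))).conv rfl ?_ ?_
  · funext k
    cases k <;> simp [Function.update]
  · funext k
    cases k <;> simp [Function.update]
  · funext k
    cases k <;> simp [Function.update]
  · simp [Function.update, Jl, Pl, Ql]
    nlinarith

theorem finRange_flatMap {α : Type} (N : ℕ) (f : ℕ → List α) :
    ((List.finRange N).flatMap fun i => f i.val) = (List.range N).flatMap f := by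
  rw [← List.map_coe_finRange_eq_range, List.flatMap_map]

theorem pat_eq {w : List Bool} {N B : ℕ} (x y : Fin N × Fin N) :
    bpat w N B x y = pat (tc N x.1) (jc w N B x.2) (tc N y.1, flg x.1 y.1)
      (jc w N B y.2, flg x.2 y.2) := rfl

theorem matBits_eq (w : List Bool) (N B : ℕ) :
    matBits p N B w β = (List.range N).flatMap fun t => (List.range N).flatMap (GJ β w N B t) := by
  have h1 : ∀ f : Fin N × Fin N × Fin p → Bool, (allVerts p N).map f =
      (List.range N).flatMap fun t' => (List.range N).flatMap fun j' =>
        if h : t' < N ∧ j' < N then (List.finRange p).map fun a' => f (⟨t', h.1⟩, ⟨j', h.2⟩, a')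
        else [] := by
    intro f
    rw [← finRange_flatMap]
    simp only [allVerts, List.map_flatMap, List.map_map]
    congr 1
    funext t
    rw [← finRange_flatMap]
    congr 1
    funext j
    simp [t.2, j.2]
  unfold matBits
  have h2 : ∀ g : Fin N × Fin N × Fin p → List Bool, (allVerts p N).flatMap g =
      (List.finRange N).flatMap fun t => (List.finRange N).flatMap fun j =>
        (List.finRange p).flatMap fun a => g (t, j, a) := by
    intro g
    simp only [allVerts, List.flatMap_assoc, List.flatMap_map]
  rw [h2, ← finRange_flatMap]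
  congr 1
  funext t
  rw [← finRange_flatMap]
  congr 1
  funext j
  unfold GJ
  congr 1
  funext a
  rw [h1]
  refine List.flatMap_congr fun t' ht' => ?_
  refine List.flatMap_congr fun j' hj' => ?_
  rw [List.mem_range] at ht' hj'
  rw [dif_pos ⟨ht', hj'⟩]
  rfl

/-- polynomially bounded -/
def PB (f : ℕ → ℕ) : Prop := ∃ A D, ∀ m, 1 ≤ m → f m ≤ A * m ^ D

theorem PB.const (c : ℕ) : PB fun _ => c := ⟨c, 0, fun m _ => by simp⟩

theorem PB.id : PB fun m => m := ⟨1, 1, fun m _ => by simp⟩

theorem PB.add {f g : ℕ → ℕ} (hf : PB f) (hg : PB g) : PB fun m => f m + g m := by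
  obtain ⟨A, D, h⟩ := hf
  obtain ⟨A', D', h'⟩ := hg
  refine ⟨A + A', D + D', fun m hm => ?_⟩
  have h1 : m ^ D ≤ m ^ (D + D') := Nat.pow_le_pow_right hm (by omega)
  have h2 : m ^ D' ≤ m ^ (D + D') := Nat.pow_le_pow_right hm (by omega)
  calc f m + g m ≤ A * m ^ D + A' * m ^ D' := Nat.add_le_add (h m hm) (h' m hm)
    _ ≤ A * m ^ (D + D') + A' * m ^ (D + D') := by gcongr
    _ = (A + A') * m ^ (D + D') := by ring

theorem PB.mul {f g : ℕ → ℕ} (hf : PB f) (hg : PB g) : PB fun m => f m * g m := by
  obtain ⟨A, D, h⟩ := hf
  obtain ⟨A', D', h'⟩ := hg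
  refine ⟨A * A', D + D', fun m hm => ?_⟩
  calc f m * g m ≤ (A * m ^ D) * (A' * m ^ D') := Nat.mul_le_mul (h m hm) (h' m hm)
    _ = A * A' * m ^ (D + D') := by ring

theorem PB.pow {f : ℕ → ℕ} (hf : PB f) : ∀ d : ℕ, PB fun m => f m ^ d
  | 0 => by
    simp only [pow_zero]
    exact PB.const 1
  | d + 1 => by
    simp only [pow_succ]
    exact (PB.pow hf d).mul hf

theorem PB.mono {f g : ℕ → ℕ} (hg : PB g) (h : ∀ m, 1 ≤ m → f m ≤ g m) : PB f := by
  obtain ⟨A, D, h'⟩ := hg
  exact ⟨A, D, fun m hm => (h m hm).trans (h' m hm)⟩

theorem powT_PB : ∀ d : ℕ, PB fun m => powT m d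
  | 0 => PB.const 1
  | d + 1 => by
    simp only [powT]
    exact (((powT_PB d).add ((((PB.id.pow d).mul (((PB.const 10).mul PB.id).add (PB.const 10))).add
      (((PB.id.pow d).mul PB.id).mul (PB.const 4))).add (PB.const 7))).add (PB.const 1))

theorem arithT_PB (a b c d : ℕ) : PB fun m => arithT a b c d m := by
  simp only [arithT]
  exact ((((PB.const 10).mul PB.id).add (PB.const 9)).add ((powT_PB b).add
    ((((PB.id.pow b).mul (PB.const (2 * a + 4))).add (PB.const 3)).add ((powT_PB d).add
    ((((PB.id.pow d).mul (PB.const (2 * c + 4))).add (PB.const 3)).add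
    ((PB.id.mul (PB.const 4)).add (PB.const 3)) |>.add (PB.const 1)) |>.add (PB.const 1))
    |>.add (PB.const 1)) |>.add (PB.const 1))).add (PB.const 1)

theorem bodyJT_PB {N : ℕ → ℕ} (hN : PB N) (p : ℕ) : PB fun m => bodyJT p (N m) := by
  simp only [bodyJT]
  exact ((PB.const 1).add (((((PB.const 10).mul hN).add (PB.const 10)).add
    (((PB.const p).mul ((hN.mul ((hN.mul (PB.const (2 * p + 10))).add (PB.const 16))).add
      (PB.const 8))).add (PB.const 1))).add (PB.const 1))).add (PB.const 1)

theorem bodyTT_PB {N : ℕ → ℕ} (hN : PB N) (p : ℕ) : PB fun m => bodyTT p (N m) := by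
  simp only [bodyTT]
  exact ((((PB.const 10).mul hN).add (PB.const 10)).add ((((hN.mul ((bodyJT_PB hN p).add
    (PB.const 7))).add (PB.const 7)).add (((PB.const 8).mul hN).add (PB.const 7))).add
    (PB.const 1))).add (PB.const 1)

end MB

open MB in
theorem matBits_polyTime (p a b c d : ℕ) (β : Fin p → Fin p → BPat → Bool) :
    PolyTime fun w => matBits p (a * (w.length + 1) ^ b)
      (w.length + 1 + c * (w.length + 1) ^ d) w β := by
  have hN : PB fun m => a * m ^ b := (PB.const a).mul (PB.id.pow b)
  have hB : PB fun m => m + c * m ^ d := PB.id.add ((PB.const c).mul (PB.id.pow d))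
  obtain ⟨A, D, hAD⟩ := ((arithT_PB a b c d).add (((((hN.mul (PB.const 18)).add
    ((PB.const 4).mul PB.id)).add ((PB.const 4).mul hB)).add (PB.const 16)).add
    (((hN.mul ((bodyTT_PB hN p).add (PB.const 15))).add (PB.const 15)))) |>.add (PB.const 2) :
    PB fun m => arithT a b c d m + (((a * m ^ b) * 18 + 4 * m + 4 * (m + c * m ^ d) + 16) +
      ((a * m ^ b) * (bodyTT p (a * m ^ b) + 15) + 15)) + 2)
  refine compile GG (Reg GG) KK.inp KK.out (Equiv.refl Bool) (Equiv.refl Bool) v0
    (.seq (arith a b c d) (.seq bld (mainC β))) _ A D fun w => ?_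
  have r1 := arith_runs a b c d (S := oneStack KK.inp w) (by
    intro k hk
    simp [oneStack, Function.update, hk])
  have e0 : oneStack (Γ := GG) KK.inp w KK.inp = w := by simp [oneStack]
  rw [e0] at r1
  have r2 := bld_runs w (a * (w.length + 1) ^ b) (w.length + 1 + c * (w.length + 1) ^ d)
  have r3 := mainC_runs β w (a * (w.length + 1) ^ b) (w.length + 1 + c * (w.length + 1) ^ d)
  have r := (r1.conv rfl (S'' := Function.update (Function.update (Function.update (fun _ => [])
    .n (un (a * (w.length + 1) ^ b))) .inp w) .b (un (w.length + 1 + c * (w.length + 1) ^ d)))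
    (by funext k; cases k <;> simp [Function.update, oneStack]) le_rfl).seq (r2.seq r3)
  obtain ⟨n, hn, hE⟩ := r
  refine ⟨n, ?_, ?_⟩
  · refine hn.trans (le_trans ?_ (hAD (w.length + 1) (by omega)))
    simp only []
    omega
  · simp only [Equiv.refl_symm, Equiv.coe_refl, List.map_id]
    rw [matBits_eq]
    exact hE

end Pool.Agent.helper64.LP
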