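import Pool.Agent.helper64.LP.Lang

/-!
# MP_32ee78_lc, module H2, part 1: verified for-each loops over stacks
-/

set_option autoImplicit false

namespace Pool.Agent.helper64.LP

namespace MB

open Function (update)

section
variable {K : Type} {Γ : K → Type}

/-- registers: one buffer for each stack -/
abbrev Reg (Γ : K → Type) : Type := ∀ k, Option (Γ k)

/-- contents of the stacks -/
abbrev Stk (Γ : K → Type) : Type := ∀ k, List (Γ k)

variable [DecidableEq K]

/-- `c` runs from `(v, S)` to `(v', S')` in time at most `t` -/
def Runs (c : Cmd Γ (Reg Γ)) (v : Reg Γ) (S : Stk Γ) (v' : Reg Γ) (S' : Stk Γ) (t : ℕ) : Prop :=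
  ∃ n ≤ t, Ev c v S v' S' n

theorem Runs.mono {c : Cmd Γ (Reg Γ)} {v v' : Reg Γ} {S S' : Stk Γ} {t t' : ℕ}
    (h : Runs c v S v' S' t) (ht : t ≤ t') : Runs c v S v' S' t' := by
  obtain ⟨n, hn, hE⟩ := h
  exact ⟨n, hn.trans ht, hE⟩

theorem Runs.conv {c : Cmd Γ (Reg Γ)} {v v' v'' : Reg Γ} {S S' S'' : Stk Γ} {t t' : ℕ}
    (h : Runs c v S v' S' t) (hv : v' = v'') (hS : S' = S'') (ht : t ≤ t') :
    Runs c v S v'' S'' t' := by
  subst hv hS
  exact h.mono ht

theorem Runs.seq {c d : Cmd Γ (Reg Γ)} {v v' v'' : Reg Γ} {S S' S'' : Stk Γ} {t t' : ℕ}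
    (h : Runs c v S v' S' t) (h' : Runs d v' S' v'' S'' t') :
    Runs (.seq c d) v S v'' S'' (t + t' + 1) := by
  obtain ⟨n, hn, hE⟩ := h
  obtain ⟨m, hm, hE'⟩ := h'
  exact ⟨n + m + 1, by omega, Ev.seq _ _ _ _ _ _ _ _ _ _ hE hE'⟩

theorem Runs.push (k : K) (f : Reg Γ → Γ k) (v : Reg Γ) (S : Stk Γ) :
    Runs (.push k f) v S v (update S k (f v :: S k)) 1 := ⟨1, le_rfl, Ev.push _ _ _ _⟩

theorem Runs.load (f : Reg Γ → Reg Γ) (v : Reg Γ) (S : Stk Γ) :
    Runs (.load f) v S (f v) S 1 := ⟨1, le_rfl, Ev.load _ _ _⟩

theorem Runs.peek (k : K) (f : Reg Γ → Option (Γ k) → Reg Γ) (v : Reg Γ) (S : Stk Γ) :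
    Runs (.peek k f) v S (f v (S k).head?) S 1 := ⟨1, le_rfl, Ev.peek _ _ _ _⟩

theorem Runs.pop (k : K) (f : Reg Γ → Option (Γ k) → Reg Γ) (v : Reg Γ) (S : Stk Γ) :
    Runs (.pop k f) v S (f v (S k).head?) (update S k (S k).tail) 1 := ⟨1, le_rfl, Ev.pop _ _ _ _⟩

/-- pop stack `k` into its buffer -/
def get (k : K) : Cmd Γ (Reg Γ) := .pop k fun v o => update v k o

theorem Runs.get (k : K) (v : Reg Γ) (S : Stk Γ) :
    Runs (get k) v S (update v k (S k).head?) (update S k (S k).tail) 1 := Runs.pop _ _ _ _

/-- for each cell of stack `k`, from the top -/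
def each (k : K) (c : Cmd Γ (Reg Γ)) : Cmd Γ (Reg Γ) :=
  .seq (get k) (.whl (fun v => (v k).isSome) (.seq c (get k)))

/-- THE LOOP RULE: `V a b`, `W a b` are the registers (up to the buffer of `k`) and the stacks
when the cells of `a` have been treated and the cells of `b` remain. -/
theorem each_runs {k : K} {c : Cmd Γ (Reg Γ)} {t : ℕ} (l : List (Γ k))
    (V : List (Γ k) → List (Γ k) → Reg Γ) (W : List (Γ k) → List (Γ k) → Stk Γ)
    (hk : ∀ a b, a ++ b = l → W a b k = b)
    (h : ∀ a y b, a ++ y :: b = l →
      Runs c (update (V a (y :: b)) k (some y)) (update (W a (y :: b)) k b)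
        (update (V (a ++ [y]) b) k (some y)) (W (a ++ [y]) b) t) :
    Runs (each k c) (V [] l) (W [] l) (update (V l []) k none) (W l [])
      (l.length * (t + 3) + 3) := by
  have main : ∀ (b a : List (Γ k)), a ++ b = l →
      Runs (.whl (fun v => (v k).isSome) (.seq c (MB.get k)))
        (update (V a b) k b.head?) (update (W a b) k b.tail)
        (update (V l []) k none) (W l []) (b.length * (t + 3) + 1) := by
    intro b
    induction b with
    | nil =>
      intro a ha
      rw [List.append_nil] at ha
      subst ha
      refine ⟨1, by simp, ?_⟩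
      have h1 : update (W a []) k [] = W a [] := by
        conv_rhs => rw [← Function.update_eq_self k (W a [])]
        rw [hk a [] (by simp)]
      simp only [List.head?_nil, List.tail_nil]
      rw [h1]
      exact Ev.whl_false _ _ _ _ (by simp)
    | cons y b ih =>
      intro a ha
      obtain ⟨n, hn, hE⟩ := h a y b ha
      obtain ⟨m, hm, hE'⟩ := ih (a ++ [y]) (by simp [ha])
      obtain ⟨n2, hn2, hE2⟩ := Runs.get k (update (V (a ++ [y]) b) k (some y)) (W (a ++ [y]) b)
      rw [Function.update_idem, hk (a ++ [y]) b (by simp [ha])] at hE2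
      simp only [List.head?_cons, List.tail_cons, List.length_cons]
      refine ⟨(n + n2 + 1) + m + 1, ?_, ?_⟩
      · have : (b.length + 1) * (t + 3) = b.length * (t + 3) + t + 3 := by ring
        omega
      · exact Ev.whl_true _ _ _ _ _ _ _ _ _ _ (by simp) (Ev.seq _ _ _ _ _ _ _ _ _ _ hE hE2) hE'
  have h0 := Runs.get k (V [] l) (W [] l)
  rw [hk [] l rfl] at h0
  exact (h0.seq (main l [] rfl)).mono (by omega)

/-- the loop rule when the registers are not changed -/
theorem each_runs' {k : K} {c : Cmd Γ (Reg Γ)} {t : ℕ} {v : Reg Γ} {S S' : Stk Γ}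
    (hv : v k = none) (l : List (Γ k)) (W : List (Γ k) → List (Γ k) → Stk Γ)
    (hk : ∀ a b, a ++ b = l → W a b k = b) (h0 : W [] l = S) (h1 : W l [] = S')
    (h : ∀ a y b, a ++ y :: b = l →
      Runs c (update v k (some y)) (update (W a (y :: b)) k b)
        (update v k (some y)) (W (a ++ [y]) b) t) :
    Runs (each k c) v S v S' (l.length * (t + 3) + 3) := by
  have := each_runs l (fun _ _ => v) W hk h
  rw [h0, h1] at this
  have h2 : update v k none = v := by
    rw [← hv]
    exact Function.update_eq_self k v
  rwa [h2] at this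

/-- move stack `k` onto stack `k'` -/
theorem move_runs {k k' : K} (hkk : k ≠ k') (g : Option (Γ k) → Γ k') {v : Reg Γ} {S : Stk Γ}
    (hv : v k = none) :
    Runs (each k (.push k' fun v => g (v k))) v S v
      (update (update S k []) k' ((S k).reverse.map (fun y => g (some y)) ++ S k'))
      ((S k).length * 4 + 3) := by
  apply each_runs' hv (S k)
    (fun a b => update (update S k b) k' (a.reverse.map (fun y => g (some y)) ++ S k'))
  · intro a b _
    rw [Function.update_of_ne hkk, Function.update_self]
  · simp
  · rfl
  · intro a y b _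
    have := Runs.push k' (fun v => g (v k)) (update v k (some y))
      (update (update (update S k (y :: b)) k' (a.reverse.map (fun y => g (some y)) ++ S k')) k b)
    convert this using 1
    funext j
    by_cases h1 : j = k'
    · subst h1
      simp [Function.update_of_ne hkk.symm]
    · by_cases h2 : j = k
      · subst h2
        simp [Function.update_of_ne hkk]
      · simp [Function.update_of_ne h1, Function.update_of_ne h2]

/-- move stack `k` onto the stacks `k₁` and `k₂` -/
theorem move2_runs {k k₁ k₂ : K} (h1 : k ≠ k₁) (h2 : k ≠ k₂) (h12 : k₁ ≠ k₂)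
    (g₁ : Option (Γ k) → Γ k₁) (g₂ : Option (Γ k) → Γ k₂) {v : Reg Γ} {S : Stk Γ}
    (hv : v k = none) :
    Runs (each k (.seq (.push k₁ fun v => g₁ (v k)) (.push k₂ fun v => g₂ (v k)))) v S v
      (update (update (update S k []) k₁ ((S k).reverse.map (fun y => g₁ (some y)) ++ S k₁))
        k₂ ((S k).reverse.map (fun y => g₂ (some y)) ++ S k₂))
      ((S k).length * 6 + 3) := by
  apply each_runs' hv (S k)
    (fun a b => update (update (update S k b) k₁ (a.reverse.map (fun y => g₁ (some y)) ++ S k₁))
      k₂ (a.reverse.map (fun y => g₂ (some y)) ++ S k₂))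
  · intro a b _
    rw [Function.update_of_ne h2, Function.update_of_ne h1, Function.update_self]
  · simp
  · rfl
  · intro a y b _
    have := (Runs.push k₁ (fun v => g₁ (v k)) (update v k (some y))
      (update (update (update (update S k (y :: b)) k₁
        (a.reverse.map (fun y => g₁ (some y)) ++ S k₁))
        k₂ (a.reverse.map (fun y => g₂ (some y)) ++ S k₂)) k b)).seq
      (Runs.push k₂ (fun v => g₂ (v k)) _ _)
    convert this using 1
    funext j
    by_cases e2 : j = k₂
    · subst e2
      simp [Function.update_of_ne h2.symm, Function.update_of_ne h12.symm]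
    · by_cases e1 : j = k₁
      · subst e1
        simp [Function.update_of_ne h1.symm, Function.update_of_ne h12]
      · by_cases e : j = k
        · subst e
          simp [Function.update_of_ne h1, Function.update_of_ne h2]
        · simp [Function.update_of_ne e1, Function.update_of_ne e2, Function.update_of_ne e]

/-- push a list of values -/
def pushL (k : K) : List (Reg Γ → Γ k) → Cmd Γ (Reg Γ)
  | [] => .load id
  | g :: gs => .seq (.push k g) (pushL k gs)

theorem pushL_runs (k : K) (v : Reg Γ) : ∀ (gs : List (Reg Γ → Γ k)) (S : Stk Γ),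
    Runs (pushL k gs) v S v (update S k ((gs.map fun g => g v).reverse ++ S k))
      (2 * gs.length + 1)
  | [], S => by
    have := Runs.load id v S
    simpa [pushL] using this
  | g :: gs, S => by
    have h1 := Runs.push k g v S
    have h2 := pushL_runs k v gs (update S k (g v :: S k))
    have h3 := (h1.seq h2).mono (t' := 2 * (g :: gs).length + 1) (by simp; omega)
    rw [Function.update_idem] at h3
    simpa [pushL] using h3

/-- for each cell of `k` push `c` times the symbol `g` on `k'` -/
theorem fill_runs {k k' : K} (hkk : k ≠ k') (g : Γ k') (c : ℕ) {v : Reg Γ} {S : Stk Γ}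
    (hv : v k = none) :
    Runs (each k (pushL k' (List.replicate c fun _ => g))) v S v
      (update (update S k []) k' (List.replicate (c * (S k).length) g ++ S k'))
      ((S k).length * (2 * c + 4) + 3) := by
  apply each_runs' hv (S k)
    (fun a b => update (update S k b) k' (List.replicate (c * a.length) g ++ S k'))
  · intro a b _
    rw [Function.update_of_ne hkk, Function.update_self]
  · simp
  · rfl
  · intro a y b _
    have := pushL_runs k' (update v k (some y)) (List.replicate c fun _ => g)
      (update (update (update S k (y :: b)) k' (List.replicate (c * a.length) g ++ S k')) k b)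
    refine this.conv rfl ?_ (by simp)
    funext j
    by_cases h1 : j = k'
    · subst h1
      simp only [Function.update_self, Function.update_of_ne hkk.symm, List.map_replicate,
        List.reverse_replicate, List.length_append, List.length_singleton]
      rw [← List.append_assoc, List.replicate_append_replicate]
      congr 2
      ring
    · by_cases h2 : j = k
      · subst h2
        simp [Function.update_of_ne hkk]
      · simp [Function.update_of_ne h1, Function.update_of_ne h2]

/-- empty a stack -/
theorem clear_runs {k : K} {v : Reg Γ} {S : Stk Γ} (hv : v k = none) :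
    Runs (each k (.load id)) v S v (update S k []) ((S k).length * 4 + 3) := by
  apply each_runs' hv (S k) (fun _ b => update S k b)
  · intro a b _
    simp
  · simp
  · rfl
  · intro a y b _
    have := Runs.load id (update v k (some y)) (update (update S k (y :: b)) k b)
    simpa using this

end

end MB

end Pool.Agent.helper64.LP
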