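import Pool.Agent.helper22.LP.Each

/-!
# MP_32ee78_lc, module H2, part 2: the stacks; unary arithmetic
-/

set_option autoImplicit false

namespace Pool.Agent.helper64.LP

namespace MB

open Function (update)

/-- the stacks (the last ones are only used as registers) -/
inductive KK : Type
  | inp | ip | out | u | u' | x | y | n | b | T | J | J0 | P | P' | Q | Q' | fl | ff | fw | fb
  | fr
  deriving DecidableEq

instance : Fintype KK where
  elems := {.inp, .ip, .out, .u, .u', .x, .y, .n, .b, .T, .J, .J0, .P, .P', .Q, .Q', .fl, .ff,
    .fw, .fb, .fr}
  complete := by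
    intro k
    cases k <;> decide

/-- cells with information on `t` -/
abbrev TC : Type := Bool × Bool

/-- cells with information on `j` -/
abbrev JC : Type := Bool × Bool × Bool × Option (Option Bool)

/-- the alphabets -/
@[reducible] def GG : KK → Type
  | .inp => Bool
  | .ip => Bool
  | .out => Bool
  | .u => Unit
  | .u' => Unit
  | .x => Unit
  | .y => Unit
  | .n => Unit
  | .b => Unit
  | .T => TC
  | .J => JC
  | .J0 => JC
  | .P => TC × Bool × Bool × Bool
  | .P' => TC × Bool × Bool × Bool
  | .Q => JC × Bool × Bool × Bool
  | .Q' => JC × Bool × Bool × Bool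
  | .fl => Bool
  | .ff => Bool
  | .fw => Bool
  | .fb => Bool
  | .fr => Bool

instance : ∀ k, Fintype (GG k) := by
  intro k
  cases k <;> infer_instance

instance : ∀ k, Inhabited (GG k) := by
  intro k
  cases k <;> infer_instance

/-- commands -/
abbrev C : Type := Cmd GG (Reg GG)

/-- `l` units -/
abbrev un (l : ℕ) : List Unit := List.replicate l ()

theorem map_un {α : Type} (l : List α) : l.map (fun _ => ()) = un l.length := by
  simp [un]

/-- the empty registers -/
def v0 : Reg GG := fun _ => none

/-- count the input: `u := n + 1` units -/
def cnt : C :=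
  .seq (each .inp (.seq (.push .ip fun v => (v .inp).getD default) (.push .u fun _ => ())))
    (.seq (each .ip (.push .inp fun v => (v .ip).getD default)) (.push .u fun _ => ()))

theorem cnt_runs {v : Reg GG} {S : Stk GG} (h1 : v .inp = none) (h2 : v .ip = none)
    (h3 : S .ip = []) (h4 : S .u = []) :
    Runs cnt v S v (update S .u (un ((S .inp).length + 1))) (10 * (S .inp).length + 9) := by
  have r1 : Runs (each .inp (.seq (.push .ip fun v => (v .inp).getD default)
      (.push .u fun _ => ()))) v S v
      (update (update (update S .inp []) .ip (S .inp).reverse) .u (un (S .inp).length))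
      ((S .inp).length * 6 + 3) :=
    (move2_runs (k := KK.inp) (k₁ := KK.ip) (k₂ := KK.u) (by decide) (by decide)
      (by decide) (fun o => o.getD default) (fun _ => ()) (v := v) (S := S) h1).conv rfl
      (by simp [h3, h4]) le_rfl
  have r2 := (move_runs (k := KK.ip) (k' := KK.inp) (by decide)
    (fun o => o.getD default) (v := v)
    (S := (update (update (update S .inp []) .ip (S .inp).reverse) .u (un (S .inp).length))) h2)
  refine (r1.seq (r2.seq (Runs.push KK.u (fun _ => ()) v _))).conv rfl ?_ ?_
  · funext j
    cases j <;> simp [Function.update, h3, List.replicate_succ]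
  · simp [Function.update]
    omega

/-- `x := x * u`, unary -/
def mul : C :=
  .seq (each .x (.seq (each .u (.seq (.push .u' fun _ => ()) (.push .y fun _ => ())))
    (each .u' (.push .u fun _ => ())))) (each .y (.push .x fun _ => ()))

theorem mul_runs {v : Reg GG} {S : Stk GG} (hx : v .x = none) (hu : v .u = none)
    (hu' : v .u' = none) (hy : v .y = none) {a m : ℕ} (sx : S .x = un a) (su : S .u = un m)
    (su' : S .u' = []) (sy : S .y = []) :
    Runs mul v S v (update S .x (un (a * m))) (a * (10 * m + 10) + a * m * 4 + 7) := by
  have r1 : Runs (each .x (.seq (each .u (.seq (.push .u' fun _ => ()) (.push .y fun _ => ())))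
      (each .u' (.push .u fun _ => ())))) v S v
      (update (update S .x []) .y (un (a * m))) ((un a).length * (10 * m + 7 + 3) + 3) := by
    apply each_runs' hx (un a) (fun p q => update (update S .x q) .y (un (p.length * m)))
    · intro p q _
      simp [Function.update]
    · funext j
      cases j <;> simp [Function.update, sx, sy]
    · simp
    · intro p c q _
      have e1 := move2_runs (k := KK.u) (k₁ := KK.u') (k₂ := KK.y) (by decide) (by decide)
        (by decide) (fun _ => ()) (fun _ => ()) (v := update v .x (some c))
        (S := update (update (update S .x (c :: q)) .y (un (p.length * m))) .x q)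
        (by simp [Function.update, hu])
      have e2 := move_runs (k := KK.u') (k' := KK.u) (by decide) (fun _ => ())
        (v := update v .x (some c))
        (S := update (update (update S .x q) .y (un ((p.length + 1) * m))) .u []
          |> fun S => update S .u' (un m))
        (by simp [Function.update, hu'])
      refine ((e1.conv rfl ?_ le_rfl).seq e2).conv rfl ?_ ?_
      · funext j
        cases j <;> simp [Function.update, su, su']
        ring
      · funext j
        cases j <;> simp [Function.update, su, su']
      · simp [Function.update, su]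
        omega
  have r2 := move_runs (k := KK.y) (k' := KK.x) (by decide) (fun _ => ()) (v := v)
    (S := update (update S .x []) .y (un (a * m))) hy
  refine (r1.seq r2).conv rfl ?_ ?_
  · funext j
    cases j <;> simp [Function.update, sy]
  · simp [Function.update]
    nlinarith

/-- `x := u ^ d`, unary -/
def pow : ℕ → C
  | 0 => .push .x fun _ => ()
  | d + 1 => .seq (pow d) mul

/-- the time of `pow` -/
def powT (m : ℕ) : ℕ → ℕ
  | 0 => 1
  | d + 1 => powT m d + (m ^ d * (10 * m + 10) + m ^ d * m * 4 + 7) + 1

theorem pow_runs {v : Reg GG} (hx : v .x = none) (hu : v .u = none)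
    (hu' : v .u' = none) (hy : v .y = none) {m : ℕ} : ∀ (d : ℕ) {S : Stk GG} (_ : S .x = [])
    (_ : S .u = un m) (_ : S .u' = []) (_ : S .y = []),
    Runs (pow d) v S v (update S .x (un (m ^ d))) (powT m d)
  | 0, S, sx, su, su', sy => by
    refine (Runs.push KK.x (fun _ => ()) v S).conv rfl ?_ le_rfl
    rw [sx]
    rfl
  | d + 1, S, sx, su, su', sy => by
    have r1 := pow_runs hx hu hu' hy d sx su su' sy
    have r2 := mul_runs (v := v) (S := update S .x (un (m ^ d))) (a := m ^ d) (m := m) hx hu hu' hy
      (by simp [Function.update]) (by simp [Function.update, su]) (by simp [Function.update, su'])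
      (by simp [Function.update, sy])
    refine (r1.seq r2).conv rfl ?_ le_rfl
    rw [Function.update_idem, pow_succ]

/-- the unary numbers `N = a m ^ b` and `B = m + c m ^ d` where `m = |w| + 1` -/
def arith (a b c d : ℕ) : C :=
  .seq cnt (.seq (pow b) (.seq (each .x (pushL .n (List.replicate a fun _ => ())))
    (.seq (pow d) (.seq (each .x (pushL .b (List.replicate c fun _ => ())))
      (each .u (.push .b fun _ => ()))))))

/-- the time of `arith` -/
def arithT (a b c d m : ℕ) : ℕ :=
  10 * m + 9 + (powT m b + (m ^ b * (2 * a + 4) + 3 + (powT m d + (m ^ d * (2 * c + 4) + 3 +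
    (m * 4 + 3) + 1) + 1) + 1) + 1) + 1

theorem arith_runs (a b c d : ℕ) {S : Stk GG} (hS : ∀ k, k ≠ .inp → S k = []) :
    Runs (arith a b c d) v0 S v0
      (update (update S .n (un (a * ((S .inp).length + 1) ^ b))) .b
        (un ((S .inp).length + 1 + c * ((S .inp).length + 1) ^ d)))
      (arithT a b c d ((S .inp).length + 1)) := by
  set m := (S .inp).length + 1 with hm
  have r1 := cnt_runs (v := v0) (S := S) rfl rfl (hS _ (by decide)) (hS _ (by decide))
  have r2 := pow_runs (v := v0) rfl rfl rfl rfl (m := m) b (S := update S .u (un m))
    (by simp [Function.update, hS]) (by simp [Function.update]) (by simp [Function.update, hS])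
    (by simp [Function.update, hS])
  have r3 := fill_runs (k := KK.x) (k' := KK.n) (by decide) () a (v := v0)
    (S := update (update S .u (un m)) .x (un (m ^ b))) rfl
  have r4 := pow_runs (v := v0) rfl rfl rfl rfl (m := m) d
    (S := update (update S .u (un m)) .n (un (a * m ^ b)))
    (by simp [Function.update, hS]) (by simp [Function.update]) (by simp [Function.update, hS])
    (by simp [Function.update, hS])
  have r5 := fill_runs (k := KK.x) (k' := KK.b) (by decide) () c (v := v0)
    (S := update (update (update S .u (un m)) .n (un (a * m ^ b))) .x (un (m ^ d))) rfl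
  have r6 := move_runs (k := KK.u) (k' := KK.b) (by decide) (fun _ => ()) (v := v0)
    (S := update (update (update S .u (un m)) .n (un (a * m ^ b))) .b (un (c * m ^ d))) rfl
  refine (r1.seq (r2.seq ((r3.conv rfl ?_ le_rfl).seq (r4.seq ((r5.conv rfl ?_ le_rfl).seq
    r6))))).conv rfl ?_ ?_
  · funext j
    cases j <;> simp [Function.update, hS]
  · funext j
    cases j <;> simp [Function.update, hS]
  · funext j
    cases j <;> simp [Function.update, hS]
  · simp [Function.update, arithT]
    omega

end MB

end Pool.Agent.helper64.LP
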