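import Pool.Agent.helper22.LP.MatA

/-!
# MP_32ee78_lc, module H2, part 3: the stacks with the information on `t` and `j`
-/

set_option autoImplicit false

namespace Pool.Agent.helper64.LP

namespace MB

open Function (update)

/-- information on `t` -/
def tc (N i : ℕ) : TC := (decide (i = 0), decide (i + 1 = N))

/-- information on `j` -/
def jc (w : List Bool) (N B i : ℕ) : JC :=
  (decide (i = 0), decide (i + 1 = N), decide (i = B), symAt w i)

/-- the flags `i = t`, `i = t + 1`, `t = i + 1` -/
def flg (t i : ℕ) : Bool × Bool × Bool := (decide (t = i), decide (i = t + 1), decide (t = i + 1))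

/-- the stack `T` -/
def Tl (N n : ℕ) : List TC := ((List.range n).map (tc N)).reverse

/-- the stack `J` -/
def Jl (w : List Bool) (N B n : ℕ) : List JC := ((List.range n).map (jc w N B)).reverse

/-- the stack `P` with the flags relative to `t` -/
def Pl (N t n : ℕ) : List (TC × Bool × Bool × Bool) :=
  ((List.range n).map fun i => (tc N i, flg t i)).reverse

/-- the stack `Q` with the flags relative to `j` -/
def Ql (w : List Bool) (N B j n : ℕ) : List (JC × Bool × Bool × Bool) :=
  ((List.range n).map fun i => (jc w N B i, flg j i)).reverse

theorem Tl_succ (N n : ℕ) : Tl N (n + 1) = tc N n :: Tl N n := by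
  simp [Tl, List.range_succ]

theorem Jl_succ (w : List Bool) (N B n : ℕ) : Jl w N B (n + 1) = jc w N B n :: Jl w N B n := by
  simp [Jl, List.range_succ]

theorem Pl_succ (N t n : ℕ) : Pl N t (n + 1) = (tc N n, flg t n) :: Pl N t n := by
  simp [Pl, List.range_succ]

theorem Ql_succ (w : List Bool) (N B j n : ℕ) :
    Ql w N B j (n + 1) = (jc w N B n, flg j n) :: Ql w N B j n := by
  simp [Ql, List.range_succ]

/-- last -/
def lst (v : Reg GG) : Bool := (v .fl).getD false

/-- the symbol of the input -/
def sy (v : Reg GG) : Option (Option Bool) :=
  match v .inp with
  | some c => some (some c)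
  | none => if (v .fw).isNone then some none else none

/-- the body of the building loop -/
def bldBody : C :=
  .seq (.peek .n fun v o => update v .fl (some o.isNone))
  (.seq (get .inp) (.seq (get .b)
  (.seq (.push .T fun v => ((v .ff).isNone, lst v))
  (.seq (.push .J fun v => ((v .ff).isNone, lst v, ((v .b).isNone && (v .fb).isNone), sy v))
  (.seq (.push .P fun v => (((v .ff).isNone, lst v), (false, false, lst v)))
  (.seq (.push .Q fun v => (((v .ff).isNone, lst v, ((v .b).isNone && (v .fb).isNone), sy v),
    (false, false, lst v)))
  (.load fun v => update (update (update (update (update (update v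
    .fw (if (v .inp).isNone then some true else v .fw))
    .fb (if (v .b).isNone then some true else v .fb))
    .ff (some true)) .inp none) .b none) .fl none)))))))

/-- build the stacks `T`, `J`, `P`, `Q` -/
def bld : C :=
  .seq (each .n bldBody) (.seq (each .inp (.load id)) (.seq (each .b (.load id))
    (.load fun v => update (update (update v .ff none) .fw none) .fb none)))

/-- registers in the building loop -/
def bldV (w : List Bool) (B i : ℕ) : Reg GG :=
  update (update (update v0 .ff (if i = 0 then none else some true))
    .fw (if w.length < i then some true else none)) .fb (if B < i then some true else none)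

/-- stacks in the building loop -/
def bldW (w : List Bool) (N B : ℕ) (i : ℕ) (rest : List Unit) : Stk GG :=
  update (update (update (update (update (update (update (fun _ => []) .n rest) .inp (w.drop i))
    .b (un (B - i))) .T (Tl N i)) .J (Jl w N B i)) .P (Pl N N i)) .Q (Ql w N B N i)

theorem aux1 (i : ℕ) : (if i = 0 then none else some true : Option Bool).isNone =
    decide (i = 0) := by
  by_cases h : i = 0 <;> simp [h]

theorem aux2 {N i : ℕ} {rest : List Unit} (hi : i + 1 + rest.length = N) :
    rest.head?.isNone = decide (i + 1 = N) := by
  cases rest with
  | nil => simpa using hi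
  | cons a l =>
    simp only [List.length_cons] at hi
    simp
    omega

theorem aux3 (B i : ℕ) : ((un (B - i)).head?.isNone &&
    (if B < i then some true else none : Option Bool).isNone) = decide (i = B) := by
  rcases lt_trichotomy i B with h | h | h
  · obtain ⟨c, hc⟩ : ∃ c, B - i = c + 1 := ⟨B - i - 1, by omega⟩
    rw [hc]
    simp [List.replicate_succ]
    omega
  · subst h
    simp
  · simp [h]
    omega

theorem aux4 (w : List Bool) (i : ℕ) : (match w[i]? with
    | some c => some (some c)
    | none => if i ≤ w.length then some none else none) = symAt w i := by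
  unfold symAt
  rcases lt_trichotomy i w.length with h | h | h
  · simp [h]
  · subst h
    simp
  · have h1 : w[i]? = none := by simp; omega
    rw [h1, if_neg (by omega), if_neg (by omega), if_neg (by omega)]

theorem bldBody_runs (w : List Bool) (N B i : ℕ) (rest : List Unit) (hi : i + 1 + rest.length = N) :
    Runs bldBody (update (bldV w B i) .n (some ())) (bldW w N B i rest)
      (update (bldV w B (i + 1)) .n (some ())) (bldW w N B (i + 1) rest) 15 := by
  refine ((Runs.peek _ _ _ _).seq ((Runs.get _ _ _).seq ((Runs.get _ _ _).seq
    ((Runs.push _ _ _ _).seq ((Runs.push _ _ _ _).seq ((Runs.push _ _ _ _).seq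
    ((Runs.push _ _ _ _).seq (Runs.load _ _ _)))))))).conv ?_ ?_ ?_
  · funext k
    cases k <;> simp [Function.update, bldV, bldW, v0]
    · by_cases h : w.length ≤ i
      · simp [h]
      · simp [h]
        omega
    · by_cases h : B ≤ i
      · simp [h, Nat.sub_eq_zero_of_le h]
      · have h1 : B - i ≠ 0 := by omega
        have h2 : ¬ B < i := by omega
        simp [h, h1, h2]
  · have hf : flg N i = (false, false, decide (i + 1 = N)) := by
      simp only [flg, Prod.mk.injEq, decide_eq_false_iff_not]
      refine ⟨by omega, by omega, ?_⟩
      congr 1
      exact propext ⟨fun h => h.symm, fun h => h.symm⟩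
    funext k
    cases k
    all_goals simp only [Function.update, bldV, bldW, lst, sy, reduceCtorEq, dite_true, dite_false,
      List.head?_drop, List.tail_drop]
    · simp [List.tail_replicate]
      omega
    · rw [Tl_succ, tc]
      simp [aux1, aux2 hi]
    · rw [Jl_succ, jc]
      have := aux3 B i
      simp [aux1, aux2 hi] at this ⊢
      exact ⟨this, aux4 w i⟩
    · rw [Pl_succ, tc, hf]
      simp [aux1, aux2 hi]
    · rw [Ql_succ, jc, hf]
      have := aux3 B i
      simp [aux1, aux2 hi] at this ⊢
      exact ⟨this, aux4 w i⟩
  · norm_num

/-- the stacks after `bld` -/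
def bldS (w : List Bool) (N B : ℕ) : Stk GG :=
  update (update (update (update (fun _ => []) .T (Tl N N)) .J (Jl w N B N)) .P (Pl N N N)) .Q
    (Ql w N B N N)

theorem bld_runs (w : List Bool) (N B : ℕ) :
    Runs bld v0 (update (update (update (fun _ => []) .n (un N)) .inp w) .b (un B)) v0
      (bldS w N B) (N * 18 + 4 * w.length + 4 * B + 16) := by
  have r1 : Runs (each .n bldBody) v0 (update (update (update (fun _ => []) .n (un N)) .inp w) .b
      (un B)) (update (bldV w B N) .n none) (bldW w N B N []) ((un N).length * (15 + 3) + 3) := by
    have := each_runs (k := KK.n) (c := bldBody) (t := 15) (un N)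
      (fun p _ => bldV w B p.length) (fun p q => bldW w N B p.length q) ?_ ?_
    · refine cast ?_ (this.conv (v'' := update (bldV w B N) .n none) (S'' := bldW w N B N []) ?_ ?_
        le_rfl)
      · congr 1
        · funext k
          cases k <;> simp [Function.update, bldV, v0]
        · funext k
          cases k <;> simp [Function.update, bldW, Tl, Jl, Pl, Ql]
      · simp
      · simp
    · intro p q _
      simp [bldW, Function.update]
    · intro p y q hpq
      have hl : p.length + 1 + q.length = N := by
        have := congrArg List.length hpq
        simp at this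
        omega
      have := bldBody_runs w N B p.length q hl
      refine cast ?_ this
      congr 1
      · funext k
        cases k <;> simp [Function.update, bldW]
      · simp
      · simp
  have r2 := clear_runs (k := KK.inp) (v := update (bldV w B N) .n none) (S := bldW w N B N [])
    (by simp [Function.update, bldV, v0])
  have r3 := clear_runs (k := KK.b) (v := update (bldV w B N) .n none)
    (S := update (bldW w N B N []) .inp []) (by simp [Function.update, bldV, v0])
  refine (r1.seq (r2.seq (r3.seq (Runs.load _ _ _)))).conv ?_ ?_ ?_
  · funext k
    cases k <;> simp [Function.update, bldV, v0]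
  · funext k
    cases k <;> simp [Function.update, bldW, bldS]
  · simp [bldW, Function.update]
    omega

end MB

end Pool.Agent.helper64.LP
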