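import Pool.Agent.helper22.LP.MatB

/-!
# MP_32ee78_lc, module H2, part 4: the main loops
-/

set_option autoImplicit false

namespace Pool.Agent.helper64.LP

namespace MB

open Function (update)

theorem suffix {α : Type} (f : ℕ → α) : ∀ (p q : List α) (n : ℕ),
    p ++ q = ((List.range n).map f).reverse →
      q = ((List.range q.length).map f).reverse ∧ n = p.length + q.length
  | [], q, n, h => by
    simp only [List.nil_append] at h
    have h1 : q.length = n := by rw [h]; simp
    refine ⟨?_, by simp [h1]⟩
    rw [h1]
    exact h
  | a :: p, q, n, h => by
    cases n with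
    | zero => simp at h
    | succ n =>
      rw [List.range_succ] at h
      simp only [List.map_append, List.map_cons, List.map_nil, List.reverse_append,
        List.reverse_cons, List.reverse_nil, List.nil_append, List.cons_append,
        List.cons.injEq] at h
      obtain ⟨h1, h2⟩ := suffix f p q n h.2
      exact ⟨h1, by simp; omega⟩

theorem suffix' {α : Type} (f : ℕ → α) {p q : List α} {y : α} {n : ℕ}
    (h : p ++ y :: q = ((List.range n).map f).reverse) :
      y = f q.length ∧ q.length < n ∧ p.length + 1 + q.length = n := by
  obtain ⟨h1, h2⟩ := suffix f p (y :: q) n h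
  simp only [List.length_cons] at h1 h2
  rw [List.range_succ] at h1
  simp only [List.map_append, List.map_cons, List.map_nil, List.reverse_append,
    List.reverse_cons, List.reverse_nil, List.nil_append, List.cons_append,
    List.cons.injEq] at h1
  exact ⟨h1.1, by omega, by omega⟩

theorem drop_range {r N : ℕ} (h : r < N) :
    (List.range N).drop r = r :: (List.range N).drop (r + 1) := by
  rw [List.drop_eq_getElem_cons (by simpa using h)]
  simp

theorem Runs.cast {K : Type} [DecidableEq K] {Γ : K → Type} {c : Cmd Γ (Reg Γ)}
    {v v' w w' : Reg Γ} {S S' R R' : Stk Γ} {t t' : ℕ}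
    (h : Runs c v S v' S' t) (e1 : v = w) (e2 : S = R) (e3 : v' = w') (e4 : S' = R')
    (e5 : t ≤ t') : Runs c w R w' R' t' := by
  subst e1 e2 e3 e4
  exact h.mono e5

/-- update the flags of `P` from `t + 1` to `t` -/
def updP : C :=
  .seq (each .P (.seq (.push .P' fun v =>
    (((v .P).getD default).1, ((v .P).getD default).2.2.2, ((v .P).getD default).2.1,
      (v .fr).getD false)) (.load fun v => update v .fr (some ((v .P).getD default).2.2.2))))
    (.seq (.load fun v => update v .fr none) (each .P' (.push .P fun v => (v .P').getD default)))

theorem updP_runs {v : Reg GG} {S : Stk GG} {N t : ℕ} (ht : t < N) (h1 : v .P = none)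
    (h2 : v .P' = none) (h3 : v .fr = none) (s1 : S .P = Pl N (t + 1) N) (s2 : S .P' = []) :
    Runs updP v S v (update S .P (Pl N t N)) (10 * N + 10) := by
  have r1 : Runs (each .P (.seq (.push .P' fun v =>
    (((v .P).getD default).1, ((v .P).getD default).2.2.2, ((v .P).getD default).2.1,
      (v .fr).getD false)) (.load fun v => update v .fr (some ((v .P).getD default).2.2.2))))
      v S (update (update v .fr (some (decide (t = 0)))) .P none)
      (update (update S .P []) .P' ((List.range N).map fun i => (tc N i, flg t i)))
      (N * (3 + 3) + 3) := by
    refine Runs.cast (each_runs (k := KK.P) (t := 3) (Pl N (t + 1) N)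
      (fun p q => update v .fr (if p = [] then none else some (decide (t = q.length))))
      (fun _ q => update (update S .P q) .P' (((List.range N).drop q.length).map
        fun i => (tc N i, flg t i))) ?_ ?_) ?_ ?_ ?_ ?_ ?_
    · intro p q _
      simp [Function.update]
    · intro p y q hpq
      obtain ⟨e1, e2, e3⟩ := suffix' _ hpq
      refine ((Runs.push _ _ _ _).seq (Runs.load _ _ _)).conv ?_ ?_ (by norm_num)
      · funext k
        cases k <;> simp [Function.update]
        rw [e1]
        simp [flg]
      · funext k
        cases k <;> simp [Function.update]
        rw [← List.map_drop, ← List.map_drop, drop_range e2, List.map_cons]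
        congr 1
        rw [e1]
        simp only [flg, Prod.mk.injEq, decide_eq_decide, true_and]
        refine ⟨by omega, ?_, ?_⟩
        · omega
        · by_cases hp : p = []
          · subst hp
            simp at e3
            simp
            omega
          · simp [hp]
    · simp [h3]
    · funext k
      cases k <;> simp [Function.update, s1, s2, Pl]
    · have hN : Pl N (t + 1) N ≠ [] := by
        intro h
        have := congrArg List.length h
        simp [Pl] at this
        omega
      simp [hN]
    · simp
    · simp [Pl]
  have r2 := move_runs (k := KK.P') (k' := KK.P) (by decide) (fun o => o.getD default) (v := v)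
    (S := update (update S .P []) .P' ((List.range N).map fun i => (tc N i, flg t i))) h2
  refine (r1.seq ((Runs.load _ _ _).seq (r2.cast ?_ rfl rfl ?_ (le_refl _)))).conv rfl rfl ?_
  · funext k
    cases k <;> simp [Function.update, h1, h3]
  · funext k
    cases k <;> simp [Function.update, s2, Pl]
  · simp [Function.update]
    omega

/-- update the flags of `Q` from `j + 1` to `j` -/
def updQ : C :=
  .seq (each .Q (.seq (.push .Q' fun v =>
    (((v .Q).getD default).1, ((v .Q).getD default).2.2.2, ((v .Q).getD default).2.1,
      (v .fr).getD false)) (.load fun v => update v .fr (some ((v .Q).getD default).2.2.2))))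
    (.seq (.load fun v => update v .fr none) (each .Q' (.push .Q fun v => (v .Q').getD default)))

theorem updQ_runs {v : Reg GG} {S : Stk GG} {w : List Bool} {N B t : ℕ} (ht : t < N)
    (h1 : v .Q = none) (h2 : v .Q' = none) (h3 : v .fr = none)
    (s1 : S .Q = Ql w N B (t + 1) N) (s2 : S .Q' = []) :
    Runs updQ v S v (update S .Q (Ql w N B t N)) (10 * N + 10) := by
  have r1 : Runs (each .Q (.seq (.push .Q' fun v =>
    (((v .Q).getD default).1, ((v .Q).getD default).2.2.2, ((v .Q).getD default).2.1,
      (v .fr).getD false)) (.load fun v => update v .fr (some ((v .Q).getD default).2.2.2))))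
      v S (update (update v .fr (some (decide (t = 0)))) .Q none)
      (update (update S .Q []) .Q' ((List.range N).map fun i => (jc w N B i, flg t i)))
      (N * (3 + 3) + 3) := by
    refine Runs.cast (each_runs (k := KK.Q) (t := 3) (Ql w N B (t + 1) N)
      (fun p q => update v .fr (if p = [] then none else some (decide (t = q.length))))
      (fun _ q => update (update S .Q q) .Q' (((List.range N).drop q.length).map
        fun i => (jc w N B i, flg t i))) ?_ ?_) ?_ ?_ ?_ ?_ ?_
    · intro p q _
      simp [Function.update]
    · intro p y q hpq
      obtain ⟨e1, e2, e3⟩ := suffix' _ hpq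
      refine ((Runs.push _ _ _ _).seq (Runs.load _ _ _)).conv ?_ ?_ (by norm_num)
      · funext k
        cases k <;> simp [Function.update]
        rw [e1]
        simp [flg]
      · funext k
        cases k <;> simp [Function.update]
        rw [← List.map_drop, ← List.map_drop, drop_range e2, List.map_cons]
        congr 1
        rw [e1]
        simp only [flg, Prod.mk.injEq, decide_eq_decide, true_and]
        refine ⟨by omega, ?_, ?_⟩
        · omega
        · by_cases hp : p = []
          · subst hp
            simp at e3
            simp
            omega
          · simp [hp]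
    · simp [h3]
    · funext k
      cases k <;> simp [Function.update, s1, s2, Ql]
    · have hN : Ql w N B (t + 1) N ≠ [] := by
        intro h
        have := congrArg List.length h
        simp [Ql] at this
        omega
      simp [hN]
    · simp
    · simp [Ql]
  have r2 := move_runs (k := KK.Q') (k' := KK.Q) (by decide) (fun o => o.getD default) (v := v)
    (S := update (update S .Q []) .Q' ((List.range N).map fun i => (jc w N B i, flg t i))) h2
  refine (r1.seq ((Runs.load _ _ _).seq (r2.cast ?_ rfl rfl ?_ (le_refl _)))).conv rfl rfl ?_
  · funext k
    cases k <;> simp [Function.update, h1, h3]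
  · funext k
    cases k <;> simp [Function.update, s2, Ql]
  · simp [Function.update]
    omega

/-- reset the flags of `Q` -/
def resQ : C :=
  .seq (each .Q (.push .Q' fun v => (((v .Q).getD default).1, (false, false,
    ((v .Q).getD default).1.2.1)))) (each .Q' (.push .Q fun v => (v .Q').getD default))

theorem flg_last {N i : ℕ} (hi : i < N) : flg N i = (false, false, decide (i + 1 = N)) := by
  simp only [flg, Prod.mk.injEq, decide_eq_false_iff_not]
  refine ⟨by omega, by omega, ?_⟩
  congr 1
  exact propext ⟨fun h => h.symm, fun h => h.symm⟩

theorem resQ_runs {v : Reg GG} {S : Stk GG} {w : List Bool} {N B t : ℕ}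
    (h1 : v .Q = none) (h2 : v .Q' = none)
    (s1 : S .Q = Ql w N B t N) (s2 : S .Q' = []) :
    Runs resQ v S v (update S .Q (Ql w N B N N)) (8 * N + 7) := by
  have r1 := move_runs (k := KK.Q) (k' := KK.Q') (by decide) (fun o => ((o.getD default).1,
    (false, false, (o.getD default).1.2.1))) (v := v) (S := S) h1
  have r2 := move_runs (k := KK.Q') (k' := KK.Q) (by decide) (fun o => o.getD default) (v := v)
    (S := update (update S .Q []) .Q' ((List.range N).map fun i => (jc w N B i, flg N i))) h2
  refine ((r1.conv rfl ?_ le_rfl).seq r2).conv rfl ?_ ?_
  · funext k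
    cases k <;> simp [Function.update, s1, s2, Ql]
    intro a ha
    rw [flg_last ha]
    simp [jc]
  · funext k
    cases k <;> simp [Function.update, s2, Ql]
  · simp [Function.update, s1, Ql]
    omega

end MB

end Pool.Agent.helper64.LP
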