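import Pool.Agent.helper22.LP.MatC

/-!
# MP_32ee78_lc, module H2, part 5: emission loops
-/

set_option autoImplicit false

namespace Pool.Agent.helper64.LP

namespace MB

open Function (update)

/-- for each cell of `Q` print the values of the list `L` (the last one first) -/
def emQ (L : List (Reg GG → Bool)) : C :=
  .seq (each .Q (.seq (.push .Q' fun v => (v .Q).getD default) (pushL .out L)))
    (each .Q' (.push .Q fun v => (v .Q').getD default))

/-- the printed values for a cell of `Q` -/
def valQ (L : List (Reg GG → Bool)) (v : Reg GG) (c : GG .Q) : List Bool :=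
  (L.map fun g => g (update v .Q (some c))).reverse

theorem emQ_runs (L : List (Reg GG → Bool)) {v : Reg GG} {S : Stk GG} (h1 : v .Q = none)
    (h2 : v .Q' = none) (s2 : S .Q' = []) :
    Runs (emQ L) v S v (update S .out ((S .Q).reverse.flatMap (valQ L v) ++ S .out))
      ((S .Q).length * (2 * L.length + 10) + 7) := by
  have r1 : Runs (each .Q (.seq (.push .Q' fun v => (v .Q).getD default) (pushL .out L))) v S v
      (update (update (update S .Q []) .Q' (S .Q).reverse) .out
        ((S .Q).reverse.flatMap (valQ L v) ++ S .out))
      ((S .Q).length * ((1 + (2 * L.length + 1) + 1) + 3) + 3) := by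
    refine each_runs' (k := KK.Q) h1 (S .Q)
      (fun p q => update (update (update S .Q q) .Q' p.reverse) .out
        (p.reverse.flatMap (valQ L v) ++ S .out)) ?_ ?_ ?_ ?_
    · intro p q _
      simp [Function.update]
    · funext k
      cases k <;> simp [Function.update, s2]
    · rfl
    · intro p y q hpq
      refine ((Runs.push _ _ _ _).seq (pushL_runs _ _ _ _)).conv rfl ?_ le_rfl
      funext k
      cases k <;> simp [Function.update]
      simp [valQ]
  have r2 := move_runs (k := KK.Q') (k' := KK.Q) (by decide) (fun o => o.getD default) (v := v)
    (S := (update (update (update S .Q []) .Q' (S .Q).reverse) .out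
        ((S .Q).reverse.flatMap (valQ L v) ++ S .out))) h2
  refine (r1.seq r2).conv rfl ?_ ?_
  · funext k
    cases k <;> simp [Function.update, s2]
  · simp [Function.update]
    nlinarith

/-- for each cell of `P` and each cell of `Q` print the values of the list `L` -/
def emP (L : List (Reg GG → Bool)) : C :=
  .seq (each .P (.seq (.push .P' fun v => (v .P).getD default) (emQ L)))
    (each .P' (.push .P fun v => (v .P').getD default))

/-- the printed values -/
def valP (L : List (Reg GG → Bool)) (v : Reg GG) (pl : List (GG .P)) (ql : List (GG .Q)) :
    List Bool :=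
  pl.reverse.flatMap fun c => ql.reverse.flatMap (valQ L (update v .P (some c)))

theorem emP_runs (L : List (Reg GG → Bool)) {v : Reg GG} {S : Stk GG} (h1 : v .Q = none)
    (h2 : v .Q' = none) (h3 : v .P = none) (h4 : v .P' = none) (s2 : S .Q' = [])
    (s4 : S .P' = []) :
    Runs (emP L) v S v (update S .out (valP L v (S .P) (S .Q) ++ S .out))
      ((S .P).length * ((S .Q).length * (2 * L.length + 10) + 16) + 7) := by
  have r1 : Runs (each .P (.seq (.push .P' fun v => (v .P).getD default) (emQ L))) v S v
      (update (update (update S .P []) .P' (S .P).reverse) .out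
        (valP L v (S .P) (S .Q) ++ S .out))
      ((S .P).length * ((1 + ((S .Q).length * (2 * L.length + 10) + 7) + 1) + 3) + 3) := by
    refine each_runs' (k := KK.P) h3 (S .P)
      (fun p q => update (update (update S .P q) .P' p.reverse) .out
        (valP L v p (S .Q) ++ S .out)) ?_ ?_ ?_ ?_
    · intro p q _
      simp [Function.update]
    · funext k
      cases k <;> simp [Function.update, s4, valP]
    · rfl
    · intro p y q hpq
      refine ((Runs.push _ _ _ _).seq (emQ_runs L ?_ ?_ ?_)).conv rfl ?_ ?_
      · simp [Function.update, h1]
      · simp [Function.update, h2]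
      · simp [Function.update, s2]
      · funext k
        cases k <;> simp [Function.update]
        simp [valP]
      · simp [Function.update]
  have r2 := move_runs (k := KK.P') (k' := KK.P) (by decide) (fun o => o.getD default) (v := v)
    (S := (update (update (update S .P []) .P' (S .P).reverse) .out
        (valP L v (S .P) (S .Q) ++ S .out))) h4
  refine (r1.seq r2).conv rfl ?_ ?_
  · funext k
    cases k <;> simp [Function.update, s4]
  · simp [Function.update]
    nlinarith

/-- emission for several lists -/
def emA : List (List (Reg GG → Bool)) → C
  | [] => .load id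
  | L :: Ls => .seq (emP L) (emA Ls)

theorem emA_runs {v : Reg GG} (h1 : v .Q = none)
    (h2 : v .Q' = none) (h3 : v .P = none) (h4 : v .P' = none) (p : ℕ) :
    ∀ (Ls : List (List (Reg GG → Bool))) (_ : ∀ L ∈ Ls, L.length = p) {S : Stk GG}
      (_ : S .Q' = []) (_ : S .P' = []),
    Runs (emA Ls) v S v
      (update S .out ((Ls.reverse.flatMap fun L => valP L v (S .P) (S .Q)) ++ S .out))
      (Ls.length * ((S .P).length * ((S .Q).length * (2 * p + 10) + 16) + 8) + 1)
  | [], _, S, s2, s4 => by
    have := Runs.load id v S
    simpa [emA] using this
  | L :: Ls, hL, S, s2, s4 => by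
    have r1 := emP_runs L (v := v) (S := S) h1 h2 h3 h4 s2 s4
    have r2 := emA_runs h1 h2 h3 h4 p Ls (fun L h => hL L (List.mem_cons_of_mem _ h))
      (S := (update S .out (valP L v (S .P) (S .Q) ++ S .out)))
      (by simp [Function.update, s2]) (by simp [Function.update, s4])
    refine (r1.seq r2).conv rfl ?_ ?_
    · funext k
      cases k <;> simp [Function.update]
    · have := hL L (List.mem_cons_self)
      simp [Function.update, this]
      nlinarith

end MB

end Pool.Agent.helper64.LP
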